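import Mathlib

/-! Symmetric second differences and the iteration of De Giorgi. -/

open Set Filter MeasureTheory
open scoped Topology

namespace Pool.Agent.Lib.ZK18

/-- The chord inequality from symmetric second differences. -/
theorem chord {f : ℝ → ℝ} {a b κ : ℝ} (hf : ContinuousOn f (Icc a b))
    (h : ∀ t ∈ Ioo a b, ∃ C : ℝ, ∀ᶠ r in 𝓝[>] (0 : ℝ),
      -(κ * r ^ 2) - C * r ^ 3 ≤ f (t + r) + f (t - r) - 2 * f t) {t : ℝ} (ht : t ∈ Icc a b) :
    (b - a) * f t ≤ (b - t) * f a + (t - a) * f b + (b - a) * (κ / 2 * ((t - a) * (b - t))) := by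
  rcases (ht.1.trans ht.2).eq_or_lt with rfl | hab
  · obtain rfl : t = a := le_antisymm ht.2 ht.1
    simp
  have hL : 0 < b - a := sub_pos.2 hab
  have key : ∀ ε > (0 : ℝ), (b - a) * f t ≤ (b - t) * f a + (t - a) * f b +
      (b - a) * ((κ + ε) / 2 * ((t - a) * (b - t))) := by
    intro ε hε
    let g : ℝ → ℝ := fun s => (b - a) * f s - ((b - s) * f a + (s - a) * f b +
      (b - a) * ((κ + ε) / 2 * ((s - a) * (b - s))))
    have hg : ContinuousOn g (Icc a b) :=
      (continuousOn_const.mul hf).sub (Continuous.continuousOn (by fun_prop))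
    obtain ⟨s, hs, hm⟩ := isCompact_Icc.exists_isMaxOn ⟨t, ht⟩ hg
    refine sub_nonpos.1 (le_trans (hm ht) (not_lt.1 fun h0 : 0 < g s => ?_))
    have h1 : s ∈ Ioo a b := by
      refine ⟨hs.1.lt_of_ne ?_, hs.2.lt_of_ne ?_⟩
      · rintro rfl
        simp only [g] at h0
        linarith
      · rintro rfl
        simp only [g] at h0
        linarith
    obtain ⟨C, hC⟩ := h s h1
    have e1 : ∀ᶠ r in 𝓝[>] (0 : ℝ), r < min (s - a) (b - s) :=
      nhdsWithin_le_nhds (eventually_lt_nhds (lt_min (sub_pos.2 h1.1) (sub_pos.2 h1.2)))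
    have e2 : ∀ᶠ r in 𝓝[>] (0 : ℝ), C * r < ε := by
      have : Tendsto (fun r : ℝ => C * r) (𝓝 0) (𝓝 (C * 0)) := (continuous_const.mul continuous_id).tendsto 0
      exact nhdsWithin_le_nhds (this.eventually_lt_const (by simpa using hε))
    obtain ⟨r, ⟨⟨r1, r2⟩, r3⟩, r0⟩ := (((hC.and e1).and e2).and self_mem_nhdsWithin).exists
    have r0 : 0 < r := r0
    rw [lt_min_iff] at r2
    have a1 : g (s + r) ≤ g s := hm ⟨by linarith [h1.1], by linarith [r2.2]⟩
    have a2 : g (s - r) ≤ g s := hm ⟨by linarith [r2.1], by linarith [h1.2]⟩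
    have a3 : g (s + r) + g (s - r) - 2 * g s =
        (b - a) * (f (s + r) + f (s - r) - 2 * f s + (κ + ε) * r ^ 2) := by
      simp only [g]
      ring
    have a4 : 0 < f (s + r) + f (s - r) - 2 * f s + (κ + ε) * r ^ 2 := by
      nlinarith [mul_pos (sub_pos.2 r3) (pow_pos r0 2)]
    linarith [mul_pos hL a4]
  have hP : 0 ≤ (b - a) * ((t - a) * (b - t)) :=
    mul_nonneg hL.le (mul_nonneg (sub_nonneg.2 ht.1) (sub_nonneg.2 ht.2))
  refine le_of_forall_pos_le_add fun ε hε => ?_
  have h2 := key (ε / ((b - a) * ((t - a) * (b - t)) + 1)) (by positivity)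
  have h3 : ε / ((b - a) * ((t - a) * (b - t)) + 1) * ((b - a) * ((t - a) * (b - t))) ≤ ε := by
    rw [div_mul_eq_mul_div, div_le_iff₀ (by linarith)]
    nlinarith
  have h4 : 0 ≤ ε / ((b - a) * ((t - a) * (b - t)) + 1) * ((b - a) * ((t - a) * (b - t))) := by
    positivity
  nlinarith

/-- Extrapolation: a lower bound at `t` gives one at `T`. -/
theorem extrap {f : ℝ → ℝ} {t T κ : ℝ} (hf : ContinuousOn f (Icc 0 T))
    (h : ∀ s ∈ Ioo 0 T, ∃ C : ℝ, ∀ᶠ r in 𝓝[>] (0 : ℝ),
      -(κ * r ^ 2) - C * r ^ 3 ≤ f (s + r) + f (s - r) - 2 * f s) (h0 : 0 ≤ t) (hT : t ≤ T) :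
    T * f t ≤ (T - t) * f 0 + t * f T + T * (κ / 2 * (t * (T - t))) := by
  simpa only [sub_zero] using chord hf h ⟨h0, hT⟩

/-- The iteration of De Giorgi. -/
theorem giorgi {C d : ℝ} (hC : 0 < C) (hd : 0 < d) : ∃ S : ℝ, 0 ≤ S ∧ ∀ f : ℝ → ℝ, Antitone f →
    (∀ s, 0 ≤ f s) → f 0 ≤ 1 → (∀ s ≥ 0, ∀ r > 0, r * f (s + r) ≤ C * f s ^ (1 + d)) → f S = 0 := by
  set ρ : ℝ := (1 / 2) ^ d with hρ
  have ρ0 : 0 < ρ := by positivity
  have ρ1 : 0 < 1 - ρ := sub_pos.2 (Real.rpow_lt_one (by norm_num) (by norm_num) hd)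
  refine ⟨2 * C / (1 - ρ), by positivity, fun f hf h0 h1 h => ?_⟩
  have hp : ∀ j : ℕ, 0 ≤ 1 - ρ ^ j := fun j => sub_nonneg.2 (pow_le_one₀ ρ0.le (by linarith))
  have key : ∀ j : ℕ, f (2 * C * (1 - ρ ^ j) / (1 - ρ)) ≤ (1 / 2) ^ j := by
    intro j
    induction j with
    | zero => simpa using h1
    | succ j ih =>
      have e : 2 * C * (1 - ρ ^ (j + 1)) / (1 - ρ) =
          2 * C * (1 - ρ ^ j) / (1 - ρ) + 2 * C * ρ ^ j := by
        field_simp
        ring
      have h2 := h (2 * C * (1 - ρ ^ j) / (1 - ρ))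
        (div_nonneg (mul_nonneg (by positivity) (hp j)) ρ1.le) (2 * C * ρ ^ j) (by positivity)
      have h3 : f (2 * C * (1 - ρ ^ j) / (1 - ρ)) ^ (1 + d) ≤ (1 / 2) ^ j * ρ ^ j := by
        refine (Real.rpow_le_rpow (h0 _) ih (by positivity)).trans (le_of_eq ?_)
        rw [Real.rpow_add (by positivity), Real.rpow_one, hρ, ← Real.rpow_natCast_mul (by norm_num),
          mul_comm (j : ℝ), Real.rpow_mul_natCast (by norm_num)]
      rw [e]
      refine le_of_mul_le_mul_left (h2.trans ?_) (by positivity : 0 < 2 * C * ρ ^ j)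
      refine (mul_le_mul_of_nonneg_left h3 hC.le).trans (le_of_eq ?_)
      ring
  refine le_antisymm (ge_of_tendsto' (tendsto_pow_atTop_nhds_zero_of_lt_one (r := 1 / 2)
    (by norm_num) (by norm_num)) fun j => le_trans (hf ?_) (key j)) (h0 _)
  refine div_le_div_of_nonneg_right ?_ ρ1.le
  nlinarith [pow_pos ρ0 j]

theorem trunc {y L : ℝ} (hy : 0 ≤ y) (hL : 0 < L) (m : ℕ) : y ≤ L + y ^ (m + 1) / L ^ m := by
  rcases le_total y L with h | h
  · exact h.trans (le_add_of_nonneg_right (by positivity))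
  · refine le_add_of_nonneg_of_le hL.le ?_
    rw [le_div_iff₀ (by positivity), pow_succ, mul_comm]
    exact mul_le_mul_of_nonneg_right (pow_le_pow_left₀ hL.le h m) hy

/-- The uniform bound from the auxiliary functions. -/
theorem bound {c B α : ℝ} {m : ℕ} (hc : 0 < c) (hB : 0 ≤ B) (h0 : 0 < α) (h1 : α < 1)
    (hm : 1 < α * (m + 1)) : ∃ S : ℝ, 0 ≤ S ∧ ∀ (Ω : Type) [MeasurableSpace Ω] (μ : Measure Ω)
    (F D : Ω → ℝ), (∀ x, 0 ≤ F x) → Integrable F μ → ∫ x, F x ∂μ ≤ 1 → Measurable D →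
    (∃ R, ∀ x, D x ≤ R) → (∀ s ≥ (0 : ℝ), ∀ δ ∈ Ioc (0 : ℝ) 1, ∃ ψ : Ω → ℝ, (∀ x, 0 ≤ ψ x) ∧
      Integrable (fun x => ψ x ^ (m + 1) * F x) μ ∧ ∫ x, ψ x ^ (m + 1) * F x ∂μ ≤ B ∧
      ∀ x, D x - s ≤ c * (∫ y, max (D y - s) 0 * F y ∂μ + δ) ^ α * ψ x) →
    ∀ᵐ x ∂μ, S < D x → F x = 0 := by
  have m0 : (0 : ℝ) < m + 1 := by positivity
  have a1 : 0 < 1 - α := sub_pos.2 h1
  set β : ℝ := m / (m + 1) with hβ
  have hd : 0 < β / (1 - α) - 1 := by
    rw [sub_pos, one_lt_div a1, hβ, lt_div_iff₀ m0]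
    linarith
  obtain ⟨S, S0, hS⟩ := giorgi (C := (c * (1 + B)) ^ (1 - α)⁻¹) (by positivity) hd
  refine ⟨S, S0, fun Ω _ μ F D F0 Fi F1 hD ⟨R, hR⟩ h => ?_⟩
  let f : ℝ → ℝ := fun s => ∫ x, {x | s < D x}.indicator F x ∂μ
  have hI : ∀ s, Integrable ({x | s < D x}.indicator F) μ := fun s =>
    Fi.indicator (measurableSet_lt measurable_const hD)
  have I0 : ∀ s x, 0 ≤ {x | s < D x}.indicator F x := fun s x => indicator_nonneg (fun y _ => F0 y) x
  have f0 : ∀ s, 0 ≤ f s := fun s => integral_nonneg (I0 s)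
  have hA : ∀ s, Integrable (fun y => max (D y - s) 0 * F y) μ := fun s =>
    Fi.bdd_mul (c := max (R - s) 0) ((hD.sub_const s).max measurable_const).aestronglyMeasurable
      (.of_forall fun y => by
        rw [Real.norm_of_nonneg (le_max_right _ _)]
        exact max_le_max_right _ (sub_le_sub_right (hR y) s))
  have hz : f S = 0 := by
    refine hS f (fun s s' hs => integral_mono (hI _) (hI _) fun x =>
      indicator_le_indicator_of_subset (fun y hy => lt_of_le_of_lt hs hy) F0 x) f0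
      ((integral_mono (hI _) Fi (indicator_le_self' fun x _ => F0 x)).trans F1) fun s hs r hr => ?_
    set A := ∫ y, max (D y - s) 0 * F y ∂μ with hAd
    have A0 : 0 ≤ A := integral_nonneg fun y => mul_nonneg (le_max_right _ _) (F0 y)
    have e1 : r * f (s + r) ≤ A := by
      rw [← integral_const_mul]
      refine integral_mono ((hI _).const_mul r) (hA s) fun x => ?_
      by_cases hx : s + r < D x
      · simp only [indicator_of_mem (show x ∈ {x | s + r < D x} from hx)]
        exact mul_le_mul_of_nonneg_right (le_max_of_le_left (by linarith)) (F0 x)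
      · simp only [indicator_of_notMem (show x ∉ {x | s + r < D x} from hx), mul_zero]
        exact mul_nonneg (le_max_right _ _) (F0 x)
    have e2 : ∀ L > (0 : ℝ), A ≤ c * A ^ α * (L * f s + B / L ^ m) := fun L hL => by
      have t1 : Tendsto (fun δ : ℝ => c * (A + δ) ^ α * (L * f s + B / L ^ m)) (𝓝[>] 0)
          (𝓝 (c * (A + 0) ^ α * (L * f s + B / L ^ m))) :=
        tendsto_nhdsWithin_of_tendsto_nhds (((continuous_const.mul ((continuous_const.add
          continuous_id).rpow_const fun _ => .inr h0.le)).mul continuous_const).tendsto 0)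
      rw [add_zero] at t1
      refine ge_of_tendsto t1 ?_
      filter_upwards [Ioc_mem_nhdsGT one_pos] with δ hδ
      obtain ⟨ψ, p0, p1, p2, p3⟩ := h s hs δ hδ
      have K0 : 0 ≤ c * (A + δ) ^ α := mul_nonneg hc.le (Real.rpow_nonneg (by linarith [hδ.1]) _)
      have hi := ((hI s).const_mul L).add (p1.div_const (L ^ m))
      refine (integral_mono (hA s) (hi.const_mul (c * (A + δ) ^ α)) fun x => ?_).trans ?_
      · by_cases hx : s < D x
        · simp only [Pi.add_apply, indicator_of_mem (show x ∈ {x | s < D x} from hx)]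
          rw [max_eq_left (by linarith), mul_div_right_comm, ← add_mul, ← mul_assoc]
          exact mul_le_mul_of_nonneg_right ((p3 x).trans
            (mul_le_mul_of_nonneg_left (trunc (p0 x) hL m) K0)) (F0 x)
        · simp only [Pi.add_apply, indicator_of_notMem (show x ∉ {x | s < D x} from hx)]
          rw [max_eq_right (by linarith), zero_mul, mul_zero, zero_add]
          have := p0 x
          have := F0 x
          positivity
      · rw [integral_const_mul, integral_add' ((hI s).const_mul L) (p1.div_const _),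
          integral_const_mul, integral_div]
        exact mul_le_mul_of_nonneg_left (add_le_add le_rfl
          (div_le_div_of_nonneg_right p2 (by positivity))) K0
    refine e1.trans ?_
    rcases A0.eq_or_lt with hA0 | hA0
    · rw [← hA0]
      exact mul_nonneg (by positivity) (Real.rpow_nonneg (f0 s) _)
    have fs : 0 < f s := by
      refine (f0 s).lt_of_ne fun e => ?_
      have t1 : Tendsto (fun L : ℝ => c * A ^ α * (B / L ^ m)) atTop (𝓝 (c * A ^ α * 0)) := by
        refine Tendsto.const_mul _ (tendsto_const_nhds.div_atTop (tendsto_pow_atTop ?_))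
        rintro rfl
        norm_num at hm
        linarith
      have := ge_of_tendsto t1 ((eventually_gt_atTop 0).mono fun L hL => by
        simpa only [← e, mul_zero, zero_add] using e2 L hL)
      linarith
    have e3 := e2 (f s ^ (-(1 / ((m : ℝ) + 1)))) (Real.rpow_pos_of_pos fs _)
    have e4 : f s ^ (-(1 / ((m : ℝ) + 1))) * f s = f s ^ β := by
      rw [← Real.rpow_add_one fs.ne', hβ]
      congr 1
      field_simp
      ring
    have e5 : B / (f s ^ (-(1 / ((m : ℝ) + 1)))) ^ m = B * f s ^ β := by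
      rw [← Real.rpow_mul_natCast fs.le, div_eq_mul_inv, ← Real.rpow_neg fs.le, hβ]
      congr 2
      field_simp
    have e6 : A ^ (1 - α) ≤ c * (1 + B) * f s ^ β := by
      rw [Real.rpow_sub hA0, Real.rpow_one, div_le_iff₀ (Real.rpow_pos_of_pos hA0 _)]
      rw [e4, e5] at e3
      linarith
    have e7 := Real.rpow_le_rpow (Real.rpow_nonneg A0 _) e6 (inv_nonneg.2 a1.le)
    rw [Real.rpow_rpow_inv A0 a1.ne', Real.mul_rpow (by positivity) (Real.rpow_nonneg fs.le _),
      ← Real.rpow_mul fs.le] at e7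
    rwa [add_sub_cancel, div_eq_mul_inv]
  filter_upwards [(integral_eq_zero_iff_of_nonneg (I0 S) (hI S)).1 hz] with x hx h2
  rwa [indicator_of_mem (show x ∈ {x | S < D x} from h2)] at hx

end Pool.Agent.Lib.ZK18
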